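import Pool.Agent.W172.WL.Stm

set_option autoImplicit false

/-!
# Project WL: the random function is a continuous map into the Lipschitz functions
-/

open MeasureTheory Set Filter Topology
open scoped ENNReal NNReal

namespace Pool.Agent.W933.WL

open Pool.Agent.W172.WL

lemma Lam_zero {x : ℝ} (h : x ≤ 0 ∨ 1 ≤ x) : Lam x = 0 := by
  unfold Lam
  apply max_eq_left
  rcases h with h | h
  · exact (min_le_left _ _).trans h
  · exact (min_le_right _ _).trans (by linarith)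

lemma Lam_nonneg (x : ℝ) : 0 ≤ Lam x := le_max_left _ _

lemma Lam_le_self {x : ℝ} (h : 0 ≤ x) : Lam x ≤ x := max_le h (min_le_left _ _)

lemma Lam_le_one_sub {x : ℝ} (h : x ≤ 1) : Lam x ≤ 1 - x :=
  max_le (by linarith) (min_le_right _ _)

lemma Lam_lip (x y : ℝ) : |Lam x - Lam y| ≤ |x - y| := by
  unfold Lam
  refine (abs_max_sub_max_le_max 0 (min x (1 - x)) 0 (min y (1 - y))).trans ?_
  refine max_le (by simp) ?_
  refine (abs_min_sub_min_le_max x (1 - x) y (1 - y)).trans (max_le le_rfl ?_)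
  rw [show (1 - x) - (1 - y) = -(x - y) by ring, abs_neg]

/-- one level, rescaled -/
noncomputable def Hc (C : ℤ → ℝ) (y : ℝ) : ℝ := C ⌊y⌋ * Lam (Int.fract y)

lemma Hc_abs (C : ℤ → ℝ) (D : ℝ) (hC : ∀ j, |C j| ≤ D) (y : ℝ) : |Hc C y| ≤ D := by
  have hD : 0 ≤ D := (abs_nonneg _).trans (hC 0)
  unfold Hc
  rw [abs_mul, abs_of_nonneg (Lam_nonneg _)]
  have h1 : Lam (Int.fract y) ≤ 1 :=
    (Lam_le_self (Int.fract_nonneg y)).trans (Int.fract_lt_one y).le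
  calc |C ⌊y⌋| * Lam (Int.fract y) ≤ D * 1 := mul_le_mul (hC _) h1 (Lam_nonneg _) hD
    _ = D := mul_one D

lemma Hc_lip' (C : ℤ → ℝ) (D : ℝ) (hC : ∀ j, |C j| ≤ D) (y z : ℝ) (hyz : y ≤ z) :
    |Hc C y - Hc C z| ≤ D * (z - y) := by
  have hD : 0 ≤ D := (abs_nonneg _).trans (hC 0)
  have ey : Int.fract y = y - ⌊y⌋ := rfl
  have ez : Int.fract z = z - ⌊z⌋ := rfl
  rcases (Int.floor_mono hyz).eq_or_lt with h | h
  · unfold Hc
    rw [← h, ← mul_sub, abs_mul]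
    refine mul_le_mul (hC _) ?_ (abs_nonneg _) hD
    refine (Lam_lip _ _).trans ?_
    rw [ey, ez, ← h, abs_sub_comm, abs_of_nonneg (by linarith)]
    linarith
  · have h1 : |Hc C y| ≤ D * (1 - Int.fract y) := by
      unfold Hc
      rw [abs_mul, abs_of_nonneg (Lam_nonneg _)]
      exact mul_le_mul (hC _) (Lam_le_one_sub (Int.fract_lt_one y).le) (Lam_nonneg _) hD
    have h2 : |Hc C z| ≤ D * Int.fract z := by
      unfold Hc
      rw [abs_mul, abs_of_nonneg (Lam_nonneg _)]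
      exact mul_le_mul (hC _) (Lam_le_self (Int.fract_nonneg z)) (Lam_nonneg _) hD
    have h3 : (⌊y⌋ : ℝ) + 1 ≤ ⌊z⌋ := by exact_mod_cast h
    calc |Hc C y - Hc C z| ≤ |Hc C y| + |Hc C z| := abs_sub _ _
      _ ≤ D * (1 - Int.fract y) + D * Int.fract z := add_le_add h1 h2
      _ = D * (1 - Int.fract y + Int.fract z) := by ring
      _ ≤ D * (z - y) := mul_le_mul_of_nonneg_left (by rw [ey, ez]; linarith) hD

lemma Hc_lip (C : ℤ → ℝ) (D : ℝ) (hC : ∀ j, |C j| ≤ D) (y z : ℝ) :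
    |Hc C y - Hc C z| ≤ D * |y - z| := by
  rcases le_total y z with h | h
  · rw [abs_sub_comm y z, abs_of_nonneg (by linarith : 0 ≤ z - y)]
    exact Hc_lip' C D hC y z h
  · rw [abs_sub_comm, abs_of_nonneg (by linarith : 0 ≤ y - z)]
    exact Hc_lip' C D hC z y h

/-- one level -/
noncomputable def lev (b l : ℕ) (c : ℕ → ℝ) (x : ℝ) : ℝ :=
  ∑ i ∈ Finset.range (b ^ l), c i * Lam ((b : ℝ) ^ l * Int.fract x - i)

lemma lev_eq (b l : ℕ) (hb : 1 ≤ b) (c : ℕ → ℝ) (x : ℝ) :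
    lev b l c x = Hc (fun j => c (j % ((b ^ l : ℕ) : ℤ)).toNat) ((b : ℝ) ^ l * x) := by
  have hB : 0 < b ^ l := Nat.pow_pos (by omega)
  have hBr : (0 : ℝ) < (b : ℝ) ^ l := by positivity
  set t : ℝ := (b : ℝ) ^ l * Int.fract x with ht
  have ht0 : 0 ≤ t := mul_nonneg hBr.le (Int.fract_nonneg x)
  have ht1 : t < (b ^ l : ℕ) := by
    push_cast
    calc t < (b : ℝ) ^ l * 1 := mul_lt_mul_of_pos_left (Int.fract_lt_one x) hBr
      _ = (b : ℝ) ^ l := mul_one _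
  have hi0 : ⌊t⌋₊ < b ^ l := (Nat.floor_lt ht0).2 ht1
  have e1 : lev b l c x = c ⌊t⌋₊ * Lam (t - ⌊t⌋₊) := by
    unfold lev
    rw [Finset.sum_eq_single ⌊t⌋₊]
    · intro i _ hi
      rw [Lam_zero, mul_zero]
      rcases lt_or_gt_of_ne hi with h | h
      · right
        have h1 : ((i : ℝ) + 1) ≤ (⌊t⌋₊ : ℝ) := by exact_mod_cast h
        have h2 := Nat.floor_le ht0
        linarith
      · left
        have h1 : ((⌊t⌋₊ : ℝ) + 1) ≤ (i : ℝ) := by exact_mod_cast h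
        have h2 := Nat.lt_floor_add_one t
        linarith
    · intro h
      exact absurd (Finset.mem_range.2 hi0) h
  have e2 : (b : ℝ) ^ l * x = t + (((b ^ l : ℕ) : ℤ) * ⌊x⌋ : ℤ) := by
    push_cast
    rw [ht]
    have : x = ⌊x⌋ + Int.fract x := (Int.floor_add_fract x).symm
    conv_lhs => rw [this]
    ring
  have e3 : ⌊(b : ℝ) ^ l * x⌋ = ⌊t⌋ + ((b ^ l : ℕ) : ℤ) * ⌊x⌋ := by
    rw [e2, Int.floor_add_intCast]
  have e4 : Int.fract ((b : ℝ) ^ l * x) = t - ⌊t⌋ := by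
    rw [e2, Int.fract_add_intCast]
    rfl
  have e5 : (⌊t⌋ : ℤ) = (⌊t⌋₊ : ℤ) := (Int.natCast_floor_eq_floor ht0).symm
  have e6 : ((⌊t⌋ + ((b ^ l : ℕ) : ℤ) * ⌊x⌋) % ((b ^ l : ℕ) : ℤ)).toNat = ⌊t⌋₊ := by
    rw [Int.add_mul_emod_self_left, e5, ← Int.natCast_mod, Int.toNat_natCast,
      Nat.mod_eq_of_lt hi0]
  rw [e1]
  unfold Hc
  simp only
  rw [e3, e4, e6]
  congr 2
  rw [e5]
  simp

lemma Cb (b l : ℕ) (hb : 1 ≤ b) (c : ℕ → ℝ) (D : ℝ) (hc : ∀ i < b ^ l, |c i| ≤ D) (j : ℤ) :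
    |c (j % ((b ^ l : ℕ) : ℤ)).toNat| ≤ D := by
  have hB : (0 : ℤ) < ((b ^ l : ℕ) : ℤ) := by exact_mod_cast Nat.pow_pos (by omega)
  apply hc
  have h1 := Int.emod_lt_of_pos j hB
  have h2 := Int.emod_nonneg j hB.ne'
  omega

lemma lev_abs (b l : ℕ) (hb : 1 ≤ b) (c : ℕ → ℝ) (D : ℝ) (hc : ∀ i < b ^ l, |c i| ≤ D) (x : ℝ) :
    |lev b l c x| ≤ D := by
  rw [lev_eq b l hb]
  exact Hc_abs _ D (Cb b l hb c D hc) _

lemma lev_lip (b l : ℕ) (hb : 1 ≤ b) (c : ℕ → ℝ) (D : ℝ) (hc : ∀ i < b ^ l, |c i| ≤ D)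
    (x y : ℝ) : |lev b l c x - lev b l c y| ≤ (b : ℝ) ^ l * D * |x - y| := by
  rw [lev_eq b l hb, lev_eq b l hb]
  refine (Hc_lip _ D (Cb b l hb c D hc) _ _).trans (le_of_eq ?_)
  rw [← mul_sub, abs_mul, abs_of_nonneg (by positivity : (0 : ℝ) ≤ (b : ℝ) ^ l)]
  ring

lemma lev_sub (b l : ℕ) (c c' : ℕ → ℝ) (x : ℝ) :
    lev b l (fun i => c i - c' i) x = lev b l c x - lev b l c' x := by
  unfold lev
  rw [← Finset.sum_sub_distrib]
  exact Finset.sum_congr rfl fun i _ => by ring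

lemma lev_per (b l : ℕ) (c : ℕ → ℝ) (x : ℝ) : lev b l c (x + 1) = lev b l c x := by
  unfold lev
  rw [Int.fract_add_one]

lemma wt_pos (b : ℕ) (α : ℝ) (hb : 2 ≤ b) (l : ℕ) : 0 < wt b α l := by
  unfold wt
  have : (0 : ℝ) < b := by
    have : 0 < b := by omega
    exact_mod_cast this
  positivity

lemma wt_mul (b : ℕ) (α : ℝ) (hb : 2 ≤ b) (l : ℕ) :
    wt b α l * (b : ℝ) ^ l = ((b : ℝ) ^ (-(et α))) ^ l := by
  unfold wt
  have hb0 : (0 : ℝ) < b := by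
    have : 0 < b := by omega
    exact_mod_cast this
  rw [← Real.rpow_natCast (b : ℝ) l, ← Real.rpow_add hb0, ← Real.rpow_natCast,
    ← Real.rpow_mul hb0.le]
  congr 1
  ring

lemma wt_summable (b : ℕ) (α : ℝ) (hb : 2 ≤ b) (h1 : α < 1) :
    Summable (fun l : ℕ => wt b α l * (b : ℝ) ^ l) := by
  simp only [wt_mul b α hb]
  have hb1 : (1 : ℝ) < b := by
    have : 1 < b := by omega
    exact_mod_cast this
  refine summable_geometric_of_lt_one (Real.rpow_nonneg (by linarith) _) ?_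
  refine Real.rpow_lt_one_of_one_lt_of_neg hb1 ?_
  unfold et
  linarith

/-- the general random function with coefficients `c` -/
noncomputable def Q (b : ℕ) (α : ℝ) (c : ℕ → ℕ → ℝ) (x : ℝ) : ℝ :=
  ∑' l : ℕ, wt b α l * lev b l (c l) x

section
variable {b : ℕ} {α : ℝ} {c : ℕ → ℕ → ℝ} {D : ℕ → ℝ}

lemma term_abs (hb : 2 ≤ b) (hc : ∀ l, ∀ i < b ^ l, |c l i| ≤ D l) (x : ℝ) (l : ℕ) :
    ‖wt b α l * lev b l (c l) x‖ ≤ wt b α l * (b : ℝ) ^ l * D l := by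
  have hD : 0 ≤ D l := (abs_nonneg _).trans (hc l 0 (Nat.pow_pos (by omega)))
  have hb1 : (1 : ℝ) ≤ (b : ℝ) ^ l := one_le_pow₀ (by
    have : 1 ≤ b := by omega
    exact_mod_cast this)
  rw [Real.norm_eq_abs, abs_mul, abs_of_pos (wt_pos b α hb l), mul_assoc]
  refine mul_le_mul_of_nonneg_left ?_ (wt_pos b α hb l).le
  exact (lev_abs b l (by omega) (c l) (D l) (hc l) x).trans (le_mul_of_one_le_left hD hb1)

lemma Q_summable (hb : 2 ≤ b) (hc : ∀ l, ∀ i < b ^ l, |c l i| ≤ D l)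
    (hS : Summable fun l => wt b α l * (b : ℝ) ^ l * D l) (x : ℝ) :
    Summable fun l => wt b α l * lev b l (c l) x :=
  Summable.of_norm_bounded hS (term_abs hb hc x)

lemma Q_abs (hb : 2 ≤ b) (hc : ∀ l, ∀ i < b ^ l, |c l i| ≤ D l)
    (hS : Summable fun l => wt b α l * (b : ℝ) ^ l * D l) (x : ℝ) :
    |Q b α c x| ≤ ∑' l, wt b α l * (b : ℝ) ^ l * D l :=
  tsum_of_norm_bounded hS.hasSum (term_abs hb hc x)

lemma Q_lip (hb : 2 ≤ b) (hc : ∀ l, ∀ i < b ^ l, |c l i| ≤ D l)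
    (hS : Summable fun l => wt b α l * (b : ℝ) ^ l * D l) (x y : ℝ) :
    |Q b α c x - Q b α c y| ≤ (∑' l, wt b α l * (b : ℝ) ^ l * D l) * |x - y| := by
  unfold Q
  rw [← (Q_summable hb hc hS x).tsum_sub (Q_summable hb hc hS y), ← Real.norm_eq_abs]
  refine tsum_of_norm_bounded (hS.hasSum.mul_right |x - y|) (fun l => ?_)
  rw [Real.norm_eq_abs, ← mul_sub, abs_mul, abs_of_pos (wt_pos b α hb l), mul_assoc, mul_assoc]
  refine mul_le_mul_of_nonneg_left ?_ (wt_pos b α hb l).le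
  refine (lev_lip b l (by omega) (c l) (D l) (hc l) x y).trans (le_of_eq (by ring))

lemma S_nonneg (hb : 2 ≤ b) (hc : ∀ l, ∀ i < b ^ l, |c l i| ≤ D l) :
    0 ≤ ∑' l, wt b α l * (b : ℝ) ^ l * D l := by
  refine tsum_nonneg fun l => ?_
  have h := term_abs (α := α) hb hc 0 l
  exact (norm_nonneg (wt b α l * lev b l (c l) 0)).trans h

lemma Q_LipPer (hb : 2 ≤ b) (hc : ∀ l, ∀ i < b ^ l, |c l i| ≤ D l)
    (hS : Summable fun l => wt b α l * (b : ℝ) ^ l * D l) : LipPer (Q b α c) := by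
  refine ⟨fun x => ?_, ⟨∑' l, wt b α l * (b : ℝ) ^ l * D l, S_nonneg hb hc⟩, ?_⟩
  · unfold Q
    simp only [lev_per]
  · refine LipschitzWith.of_dist_le_mul fun x y => ?_
    rw [Real.dist_eq, Real.dist_eq]
    exact Q_lip hb hc hS x y

end

lemma norm_le' (g : LipS1) (S : ℝ) (hS : 0 ≤ S) (h1 : ∀ x, |(g : ℝ → ℝ) x| ≤ S)
    (h2 : ∀ x y, |(g : ℝ → ℝ) x - (g : ℝ → ℝ) y| ≤ S * |x - y|) : ‖g‖ ≤ 2 * S := by
  rw [norm_def]
  have a1 : supN (g : ℝ → ℝ) ≤ S := ciSup_le h1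
  have a2 : lipN (g : ℝ → ℝ) ≤ S := by
    refine ciSup_le fun p => ?_
    rcases eq_or_ne p.1 p.2 with h0 | h0
    · simp only [h0, sub_self, abs_zero, div_zero]
      exact hS
    · rw [div_le_iff₀ (abs_pos.mpr (sub_ne_zero.mpr h0))]
      exact h2 _ _
  linarith

/-- the coefficients -/
noncomputable def cc (N : ℕ) (ω : Om) (l i : ℕ) : ℝ := ∑ r ∈ Finset.range N, (ω (l, i, r) : ℝ)

lemma cc_nonneg (N : ℕ) (ω : Om) (l i : ℕ) : 0 ≤ cc N ω l i :=
  Finset.sum_nonneg fun r _ => (ω (l, i, r)).2.1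

lemma cc_le (N : ℕ) (ω : Om) (l i : ℕ) : cc N ω l i ≤ N := by
  unfold cc
  calc ∑ r ∈ Finset.range N, (ω (l, i, r) : ℝ) ≤ ∑ _r ∈ Finset.range N, (1 : ℝ) :=
        Finset.sum_le_sum fun r _ => (ω (l, i, r)).2.2
    _ = N := by simp

lemma cc_cont (N l i : ℕ) : Continuous (fun ω : Om => cc N ω l i) := by
  unfold cc
  exact continuous_finsetSum _ fun r _ => continuous_subtype_val.comp (continuous_apply _)

/-- the distance of the coefficients on one level -/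
noncomputable def dd (b N : ℕ) (ω ω' : Om) (l : ℕ) : ℝ :=
  min (N : ℝ) (∑ i ∈ Finset.range (b ^ l), |cc N ω' l i - cc N ω l i|)

lemma dd_nonneg (b N : ℕ) (ω ω' : Om) (l : ℕ) : 0 ≤ dd b N ω ω' l :=
  le_min (Nat.cast_nonneg _) (Finset.sum_nonneg fun _ _ => abs_nonneg _)

lemma dd_le (b N : ℕ) (ω ω' : Om) (l : ℕ) : dd b N ω ω' l ≤ N := min_le_left _ _

lemma dd_cont (b N : ℕ) (ω : Om) (l : ℕ) : Continuous (fun ω' : Om => dd b N ω ω' l) := by
  unfold dd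
  refine continuous_const.min (continuous_finsetSum _ fun i _ => ?_)
  exact ((cc_cont N l i).sub continuous_const).abs

lemma dd_self (b N : ℕ) (ω : Om) (l : ℕ) : dd b N ω ω l = 0 := by
  unfold dd
  simp

lemma cc_sub_le (b N : ℕ) (ω ω' : Om) (l i : ℕ) (hi : i < b ^ l) :
    |cc N ω' l i - cc N ω l i| ≤ dd b N ω ω' l := by
  refine le_min ?_ ?_
  · rw [abs_le]
    have h1 := cc_nonneg N ω l i
    have h2 := cc_le N ω l i
    have h3 := cc_nonneg N ω' l i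
    have h4 := cc_le N ω' l i
    constructor <;> linarith
  · exact Finset.single_le_sum (f := fun i => |cc N ω' l i - cc N ω l i|)
      (fun _ _ => abs_nonneg _) (Finset.mem_range.2 hi)

lemma Phi_eq (b : ℕ) (α : ℝ) (N : ℕ) (ω : Om) (x : ℝ) : Phi b α N ω x = Q b α (cc N ω) x := rfl

lemma cc_abs (N : ℕ) (ω : Om) (l i : ℕ) : |cc N ω l i| ≤ N := by
  rw [abs_of_nonneg (cc_nonneg N ω l i)]
  exact cc_le N ω l i

/-- The random function is a continuous map into `Lip(S¹)` with its norm. -/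
theorem phi_norm (b : ℕ) (α : ℝ) (N : ℕ) (hb : 2 ≤ b) (h1 : α < 1) :
    ∃ Ψ : Om → LipS1, (∀ ω, Tendsto (fun ω' => ‖Ψ ω' - Ψ ω‖) (𝓝 ω) (𝓝 0)) ∧
      ∀ (ω : Om) (x : ℝ), (Ψ ω : ℝ → ℝ) x = Phi b α N ω x := by
  have hS : Summable fun l : ℕ => wt b α l * (b : ℝ) ^ l * (N : ℝ) :=
    (wt_summable b α hb h1).mul_right _
  have hL : ∀ ω : Om, LipPer (Q b α (cc N ω)) := fun ω =>
    Q_LipPer hb (D := fun _ => (N : ℝ)) (fun l i _ => cc_abs N ω l i) hS
  have hSd : ∀ ω ω' : Om, Summable fun l : ℕ => wt b α l * (b : ℝ) ^ l * dd b N ω ω' l := by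
    intro ω ω'
    refine Summable.of_nonneg_of_le (fun l => ?_) (fun l => ?_) hS
    · exact mul_nonneg (mul_nonneg (wt_pos b α hb l).le (by positivity)) (dd_nonneg _ _ _ _ _)
    · exact mul_le_mul_of_nonneg_left (dd_le _ _ _ _ _)
        (mul_nonneg (wt_pos b α hb l).le (by positivity))
  refine ⟨fun ω => ⟨Q b α (cc N ω), hL ω⟩, fun ω => ?_, fun ω x => rfl⟩
  have hbound : ∀ ω' : Om, ‖(⟨Q b α (cc N ω'), hL ω'⟩ : LipS1) - ⟨Q b α (cc N ω), hL ω⟩‖ ≤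
      2 * ∑' l, wt b α l * (b : ℝ) ^ l * dd b N ω ω' l := by
    intro ω'
    have hq : ∀ x, Q b α (cc N ω') x - Q b α (cc N ω) x =
        Q b α (fun l i => cc N ω' l i - cc N ω l i) x := by
      intro x
      have s1 := Q_summable (α := α) hb (D := fun _ => (N : ℝ)) (fun l i _ => cc_abs N ω' l i) hS x
      have s2 := Q_summable (α := α) hb (D := fun _ => (N : ℝ)) (fun l i _ => cc_abs N ω l i) hS x
      unfold Q
      rw [← s1.tsum_sub s2]
      refine tsum_congr fun l => ?_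
      rw [lev_sub, mul_sub]
    have hc : ∀ l, ∀ i < b ^ l, |cc N ω' l i - cc N ω l i| ≤ dd b N ω ω' l :=
      fun l i hi => cc_sub_le b N ω ω' l i hi
    refine norm_le' _ _ (S_nonneg hb hc) (fun x => ?_) (fun x y => ?_)
    · show |Q b α (cc N ω') x - Q b α (cc N ω) x| ≤ _
      rw [hq x]
      exact Q_abs hb hc (hSd ω ω') x
    · show |(Q b α (cc N ω') x - Q b α (cc N ω) x) -
        (Q b α (cc N ω') y - Q b α (cc N ω) y)| ≤ _
      rw [hq x, hq y]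
      exact Q_lip hb hc (hSd ω ω') x y
  have hcont : Continuous (fun ω' : Om => 2 * ∑' l, wt b α l * (b : ℝ) ^ l * dd b N ω ω' l) := by
    refine continuous_const.mul (continuous_tsum (fun l => ?_) hS fun l ω' => ?_)
    · exact continuous_const.mul (dd_cont b N ω l)
    · rw [Real.norm_eq_abs, abs_of_nonneg (mul_nonneg (mul_nonneg (wt_pos b α hb l).le
        (by positivity)) (dd_nonneg _ _ _ _ _))]
      exact mul_le_mul_of_nonneg_left (dd_le _ _ _ _ _)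
        (mul_nonneg (wt_pos b α hb l).le (by positivity))
  have h0 : Tendsto (fun ω' : Om => 2 * ∑' l, wt b α l * (b : ℝ) ^ l * dd b N ω ω' l) (𝓝 ω)
      (𝓝 0) := by
    have := hcont.tendsto ω
    simp only [dd_self, mul_zero, tsum_zero] at this
    exact this
  exact squeeze_zero (fun _ => norm_nonneg _) hbound h0

theorem phi : S_PHI := by
  intro b α N hb _ h1
  obtain ⟨Ψ, hΨ, hx⟩ := phi_norm b α N hb h1
  refine ⟨Ψ, ?_, hx⟩
  first
    | exact continuous_iff_continuousAt.2 fun ω => tendsto_iff_norm_sub_tendsto_zero.2 (hΨ ω)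
    | (refine continuous_induced_rng.2 (continuous_pi fun x => ?_)
       refine continuous_iff_continuousAt.2 fun ω => ?_
       refine tendsto_iff_dist_tendsto_zero.2 (squeeze_zero (fun _ => dist_nonneg) (fun ω' => ?_) (hΨ ω))
       rw [Real.dist_eq]
       show |((Ψ ω' - Ψ ω : LipS1) : ℝ → ℝ) x| ≤ _
       rw [norm_def]
       exact (le_supN (Ψ ω' - Ψ ω : LipS1).2 x).trans (le_add_of_nonneg_right (lipN_nonneg _)))

end Pool.Agent.W933.WL
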